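import Pool.Agent.Helper88.GM.Goals
import Pool.Agent.Helper85.RR.S1
import Pool.Agent.Helper3.PP.TS

/-!
# MP_69be96_nt, project GM, packet SU: a bound for the weight at a single integer
-/

set_option autoImplicit false

open Finset Filter Topology

open scoped Classical

namespace Pool.Agent.Helper5.GM

open Pool.Agent.Helper88.GM
open Pool.Agent.Helper88.PP (pr Rg om Sf SS uu vv ee LA VV QQ cost nc dd)
open Pool.Agent.Helper88.RR (gg ab TB WB nz wb DB Db VM GB)
open Pool.Agent.Helper85.RR (ab_nonneg card_TB mem_TB)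
open Pool.Agent.Helper3.PP (mem_SS mem_LA sumBB)

/-- few large primes divide `m'` -/
theorem card_large {z E m' : ℕ} (hm : 1 ≤ m') (h : m' < (z + 1) ^ (E + 1)) :
    (m'.primeFactors.filter (fun p => z < p)).card ≤ E := by
  have h1 : (z + 1) ^ (m'.primeFactors.filter (fun p => z < p)).card ≤
      ∏ p ∈ m'.primeFactors.filter (fun p => z < p), p := by
    refine Finset.pow_card_le_prod _ _ _ ?_
    intro p hp
    exact (Finset.mem_filter.1 hp).2
  have h2 : ∏ p ∈ m'.primeFactors.filter (fun p => z < p), p ∣ m' :=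
    (Finset.prod_dvd_prod_of_subset _ _ _ (Finset.filter_subset _ _)).trans
      (Nat.prod_primeFactors_dvd m')
  have h3 : (z + 1) ^ (m'.primeFactors.filter (fun p => z < p)).card < (z + 1) ^ (E + 1) :=
    (h1.trans (Nat.le_of_dvd hm h2)).trans_lt h
  have h4 := (Nat.pow_lt_pow_iff_right (a := z + 1) ?_).1 h3
  · omega
  · by_contra h5
    have h6 : z + 1 = 1 := by omega
    rw [h6, one_pow, one_pow] at h3
    exact lt_irrefl _ h3

/-- the prime factors of `r` which divide `m'` -/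
noncomputable def cp (r m' : ℕ) : Finset ℕ := r.primeFactors.filter (fun p => p ∣ m')

theorem abs_uu_le (r m' : ℕ) : |uu r m'| ≤ ((∏ p ∈ cp r m', p : ℕ) : ℝ) := by
  unfold uu cp
  rw [Finset.abs_prod, Finset.prod_filter, Nat.cast_prod]
  refine Finset.prod_le_prod (fun _ _ => abs_nonneg _) fun p hp => ?_
  have hp1 : (1 : ℝ) ≤ p := by
    exact_mod_cast (Nat.prime_of_mem_primeFactors hp).one_lt.le
  split_ifs with h
  · rw [abs_le]
    constructor <;> linarith
  · simp

theorem abs_vv_le {y z r m' : ℕ} (hr : r ≠ 0) :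
    |vv y z r m'| ≤ ((∏ p ∈ cp r m', p : ℕ) : ℝ) := by
  unfold vv
  rw [if_neg hr]
  split_ifs with h
  · exact abs_uu_le r m'
  · rw [abs_zero]
    exact Nat.cast_nonneg _

theorem cp_mem {z r m' : ℕ} (hm : m' ≠ 0) (hr : Sf z r) :
    cp r m' ∈ (m'.primeFactors.filter (fun p => z < p)).powerset := by
  rw [Finset.mem_powerset]
  intro p hp
  obtain ⟨h1, h2⟩ := Finset.mem_filter.1 hp
  have hpp := Nat.prime_of_mem_primeFactors h1
  exact Finset.mem_filter.2 ⟨Nat.mem_primeFactors.2 ⟨hpp, h2, hm⟩,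
    hr.2 p hpp (Nat.dvd_of_mem_primeFactors h1)⟩

theorem cp_dvd (r m' : ℕ) : ∏ p ∈ cp r m', p ∣ r :=
  (Finset.prod_dvd_prod_of_subset _ _ _ (Finset.filter_subset _ _)).trans
    (Nat.prod_primeFactors_dvd r)

/-- the sum over the labels at one point -/
theorem sum_label {C : ℝ} {m q y z m' k : ℕ}
    (hC : ∀ d ∈ SS z (z ^ (q * m)),
      (d : ℝ) * ∑ r ∈ (LA z m (q * m)).filter (fun r => d ∣ r), ab m q z r ≤ C) (hC0 : 0 ≤ C)
    (hm' : m' ≠ 0) (hk : (m'.primeFactors.filter (fun p => z < p)).card ≤ k) :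
    ∑ r ∈ LA z m (q * m), ab m q z r * |vv y z r m'| ≤ C * 2 ^ k := by
  set U := (m'.primeFactors.filter (fun p => z < p)).powerset with hU
  have h1 : ∀ r ∈ LA z m (q * m), ab m q z r * |vv y z r m'| ≤
      ∑ S ∈ U, if (∏ p ∈ S, p) ∣ r then ((∏ p ∈ S, p : ℕ) : ℝ) * ab m q z r else 0 := by
    intro r hr
    have hr1 := (mem_SS.1 (mem_LA.1 hr).1)
    have hr0 : r ≠ 0 := by omega
    have h2 : ab m q z r * |vv y z r m'| ≤ ((∏ p ∈ cp r m', p : ℕ) : ℝ) * ab m q z r := by
      rw [mul_comm]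
      exact mul_le_mul_of_nonneg_right (abs_vv_le hr0) (ab_nonneg _ _ _ _)
    refine h2.trans ?_
    have h3 := Finset.single_le_sum (s := U)
      (f := fun S => if (∏ p ∈ S, p) ∣ r then ((∏ p ∈ S, p : ℕ) : ℝ) * ab m q z r else 0)
      (fun S _ => by
        split_ifs
        · exact mul_nonneg (Nat.cast_nonneg _) (ab_nonneg _ _ _ _)
        · exact le_rfl) (cp_mem hm' hr1.2)
    simp only [if_pos (cp_dvd r m')] at h3
    exact h3
  refine (Finset.sum_le_sum h1).trans ?_
  rw [Finset.sum_comm]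
  have h4 : ∀ S ∈ U, ∑ r ∈ LA z m (q * m),
      (if (∏ p ∈ S, p) ∣ r then ((∏ p ∈ S, p : ℕ) : ℝ) * ab m q z r else 0) ≤ C := by
    intro S _
    rw [← Finset.sum_filter, ← Finset.mul_sum]
    by_cases hS : (∏ p ∈ S, p) ∈ SS z (z ^ (q * m))
    · exact hC _ hS
    · have h5 : (LA z m (q * m)).filter (fun r => (∏ p ∈ S, p) ∣ r) = ∅ := by
        rw [Finset.filter_eq_empty_iff]
        intro r hr hd
        apply hS
        have hr1 := (mem_SS.1 (mem_LA.1 hr).1)
        have hle := Nat.le_of_dvd (by omega) hd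
        have hpos : 1 ≤ ∏ p ∈ S, p := Nat.pos_of_dvd_of_pos hd (by omega)
        refine mem_SS.2 ⟨⟨hpos, by omega⟩, ?_, ?_⟩
        · exact Squarefree.squarefree_of_dvd hd hr1.2.1
        · intro p hp hpd
          exact hr1.2.2 p hp (hpd.trans hd)
      rw [h5, Finset.sum_empty, mul_zero]
      exact hC0
  calc ∑ S ∈ U, ∑ r ∈ LA z m (q * m),
      (if (∏ p ∈ S, p) ∣ r then ((∏ p ∈ S, p : ℕ) : ℝ) * ab m q z r else 0)
      ≤ ∑ S ∈ U, C := Finset.sum_le_sum h4
    _ = U.card * C := by rw [Finset.sum_const, nsmul_eq_mul]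
    _ ≤ 2 ^ k * C := by
        refine mul_le_mul_of_nonneg_right ?_ hC0
        rw [hU, Finset.card_powerset]
        push_cast
        exact pow_le_pow_right₀ (by norm_num) hk
    _ = C * 2 ^ k := mul_comm _ _

/-- the sum over the label functions with few nonzero labels -/
theorem sum_labels {P : Finset ℕ} {L : Finset ℕ} (T : Finset (P → ℕ)) (K : ℕ) (Lam : ℝ)
    (t : P → ℕ → ℝ) (hLam : 0 ≤ Lam) (hT : ∀ r ∈ T, ∀ i, r i = 0 ∨ r i ∈ L)
    (hK : ∀ r ∈ T, nz r ≤ K) (ht0 : ∀ i, t i 0 = 1) (ht : ∀ i s, 0 ≤ t i s)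
    (hS : ∀ i, ∑ s ∈ L, t i s ≤ Lam) :
    ∑ r ∈ T, ∏ i, t i (r i) ≤ (1 + P.card * Lam) ^ K := by
  set BB := (univ : Finset (Finset P)).filter (fun B => (∅ : Finset P) ⊆ B ∧ B.card ≤ K) with hBB
  have h1 : ∑ r ∈ T, ∏ i, t i (r i) =
      ∑ B ∈ BB, ∑ r ∈ T.filter (fun r => univ.filter (fun i => r i ≠ 0) = B), ∏ i, t i (r i) := by
    refine (Finset.sum_fiberwise_of_maps_to (fun r hr => ?_) _).symm
    rw [hBB, Finset.mem_filter]
    exact ⟨Finset.mem_univ _, Finset.empty_subset _, hK r hr⟩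
  rw [h1]
  have h2 : ∀ B ∈ BB, ∑ r ∈ T.filter (fun r => univ.filter (fun i => r i ≠ 0) = B),
      ∏ i, t i (r i) ≤ Lam ^ B.card := by
    intro B _
    have h3 : T.filter (fun r => univ.filter (fun i => r i ≠ 0) = B) ⊆
        Fintype.piFinset (fun i : P => if i ∈ B then L else {0}) := by
      intro r hr
      obtain ⟨hr1, hr2⟩ := Finset.mem_filter.1 hr
      rw [Fintype.mem_piFinset]
      intro i
      by_cases hi : i ∈ B
      · rw [if_pos hi]
        rw [← hr2, Finset.mem_filter] at hi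
        exact (hT r hr1 i).resolve_left hi.2
      · rw [if_neg hi, Finset.mem_singleton]
        by_contra h4
        apply hi
        rw [← hr2, Finset.mem_filter]
        exact ⟨Finset.mem_univ _, h4⟩
    calc ∑ r ∈ T.filter (fun r => univ.filter (fun i => r i ≠ 0) = B), ∏ i, t i (r i)
        ≤ ∑ r ∈ Fintype.piFinset (fun i : P => if i ∈ B then L else {0}), ∏ i, t i (r i) :=
          Finset.sum_le_sum_of_subset_of_nonneg h3
            (fun r _ _ => Finset.prod_nonneg fun i _ => ht i _)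
      _ = ∏ i : P, ∑ s ∈ (if i ∈ B then L else {0}), t i s :=
          (Finset.prod_univ_sum (fun i : P => if i ∈ B then L else {0}) t).symm
      _ ≤ ∏ i : P, (if i ∈ B then Lam else 1) := by
          refine Finset.prod_le_prod (fun i _ => Finset.sum_nonneg fun s _ => ht i s)
            fun i _ => ?_
          split_ifs with hi
          · exact hS i
          · rw [Finset.sum_singleton, ht0]
      _ = Lam ^ B.card := by
          rw [Finset.prod_ite_mem, Finset.univ_inter, Finset.prod_const]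
  refine (Finset.sum_le_sum h2).trans ?_
  have h5 := sumBB (ι := P) ∅ K Lam hLam
  rw [Finset.card_empty, pow_zero, one_mul, Fintype.card_coe] at h5
  exact h5

theorem su (h : Pool.Agent.Helper88.RR.StmtCB) : StmtSU := by
  obtain ⟨C, hC1, hC⟩ := h
  refine ⟨1000 + ⌈C⌉₊ + ⌈Real.log C⌉₊, fun E z x y hE hSr m q hm hqm hVV hK P hPy hPz n hn => ?_⟩
  obtain ⟨s1, s2, s3, s4, s5, s6⟩ := hSr
  have hE1 : 1000 ≤ E := by omega
  have hE2 : Real.log C ≤ E := by
    refine (Nat.le_ceil _).trans ?_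
    exact_mod_cast (by omega : ⌈Real.log C⌉₊ ≤ E)
  have hEr : (1000 : ℝ) ≤ E := by exact_mod_cast hE1
  have hEz : E ≤ z := by
    have h1 : (E : ℝ) ≤ z := by
      have := Real.add_one_le_exp (E : ℝ)
      linarith
    exact_mod_cast h1
  have hz2 : 2 ≤ z := by omega
  set M := E / 16 with hM
  set K := M / m with hKdef
  -- one point
  have hS : ∀ i : P, ∑ s ∈ LA z m (q * m), ab m q z s * |vv y z s (n + (i : ℕ))| ≤ C * 2 ^ E := by
    intro i
    have hi := Finset.mem_Icc.1 (hPz i.2)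
    refine sum_label (fun d hd => ?_) (by linarith) (by omega) (card_large (by omega) ?_)
    · exact (hC m q (q * m) z hm hz2 (by omega) hVV d hd).1
    · have h1 : n + (i : ℕ) < (z + 1) ^ E + z := by omega
      have h2 : (z + 1) ^ E + z ≤ (z + 1) ^ (E + 1) := by
        rw [pow_succ]
        have h3 : 1 ≤ (z + 1) ^ E := Nat.one_le_pow _ _ (by omega)
        nlinarith
      omega
  -- the sum
  have hW : |WB m q M z y P n| ≤ (1 + P.card * (C * 2 ^ E)) ^ K := by
    unfold WB
    refine (Finset.abs_sum_le_sum_abs _ _).trans ?_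
    have h1 : ∀ r ∈ TB m q M z P,
        |∏ i : P, ((if r i = 0 then 1 else - ab m q z (r i)) * vv y z (r i) (n + (i : ℕ)))| =
        ∏ i : P, (fun (i : P) (s : ℕ) => if s = 0 then (1 : ℝ) else
          ab m q z s * |vv y z s (n + (i : ℕ))|) i (r i) := by
      intro r _
      rw [Finset.abs_prod]
      refine Finset.prod_congr rfl fun i _ => ?_
      simp only
      split_ifs with h0
      · rw [h0, one_mul]
        unfold vv
        rw [if_pos rfl, abs_one]
      · rw [abs_mul, abs_neg, abs_of_nonneg (ab_nonneg _ _ _ _)]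
    rw [Finset.sum_congr rfl h1]
    refine sum_labels (L := LA z m (q * m)) (TB m q M z P) K (C * 2 ^ E)
      (fun (i : P) (s : ℕ) => if s = 0 then (1 : ℝ) else ab m q z s * |vv y z s (n + (i : ℕ))|)
      (by positivity) (fun r hr => (mem_TB hr).1) (fun r hr => card_TB hm hz2 hr)
      (fun i => if_pos rfl) (fun i s => ?_) (fun i => ?_)
    · split_ifs
      · exact zero_le_one
      · exact mul_nonneg (ab_nonneg _ _ _ _) (abs_nonneg _)
    · refine le_trans (le_of_eq ?_) (hS i)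
      refine Finset.sum_congr rfl fun s hs => ?_
      have h0 : s ≠ 0 := by
        have := (mem_SS.1 (mem_LA.1 hs).1).1.1
        omega
      rw [if_neg h0]
  -- numerics
  have hC0 : 0 < C := by linarith
  have hx1 : Real.exp 1 ≤ x := by
    have h1 : Real.exp 1 ≤ z := (Real.exp_le_exp.2 (by linarith)).trans s1
    have h2 : (z : ℝ) ≤ x := by
      have h3 : z ≤ z ^ E := Nat.le_self_pow (by omega) z
      exact_mod_cast h3.trans s2
    linarith
  have hlx : 1 ≤ Real.log x := by
    rw [Real.le_log_iff_exp_le (lt_of_lt_of_le (Real.exp_pos 1) hx1)]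
    exact hx1
  have hll : Real.log (Real.log x) ≤ E := by
    by_contra h1
    push Not at h1
    have h2 : (E : ℝ) ^ 3 < Real.log (Real.log x) ^ 3 := pow_lt_pow_left₀ h1 (by positivity) (by norm_num)
    have h3 : (E : ℝ) ≤ (E : ℝ) ^ 3 := by
      calc (E : ℝ) = E ^ 1 := (pow_one _).symm
        _ ≤ E ^ 3 := pow_le_pow_right₀ (by linarith) (by norm_num)
    linarith
  have hPE : (P.card : ℝ) ≤ Real.exp (2 * E) := by
    have h1 : (P.card : ℝ) ≤ y := by exact_mod_cast hPy
    have h2 : Real.log x ≤ Real.exp E := by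
      rw [← Real.log_le_iff_le_exp (by linarith)]
      exact hll
    calc (P.card : ℝ) ≤ Real.log x ^ 2 := h1.trans s5
      _ ≤ Real.exp E ^ 2 := pow_le_pow_left₀ (by linarith) h2 2
      _ = Real.exp (2 * E) := by
          rw [← Real.exp_nat_mul]
          norm_num
  have hbase : 1 + (P.card : ℝ) * (C * 2 ^ E) ≤ Real.exp (4 * E + 1) := by
    have h1 : C ≤ Real.exp E := by
      rw [← Real.log_le_iff_le_exp hC0]
      exact hE2
    have h2 : (2 : ℝ) ^ E ≤ Real.exp E := by
      have h3 : (2 : ℝ) ≤ Real.exp 1 := by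
        have := Real.add_one_le_exp (1 : ℝ)
        linarith
      calc (2 : ℝ) ^ E ≤ Real.exp 1 ^ E := pow_le_pow_left₀ (by norm_num) h3 E
        _ = Real.exp E := by rw [← Real.exp_nat_mul, mul_one]
    have h4 : (P.card : ℝ) * (C * 2 ^ E) ≤ Real.exp (4 * E) := by
      calc (P.card : ℝ) * (C * 2 ^ E) ≤ Real.exp (2 * E) * (Real.exp E * Real.exp E) := by
            refine mul_le_mul hPE ?_ (by positivity) (Real.exp_pos _).le
            exact mul_le_mul h1 h2 (by positivity) (Real.exp_pos _).le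
        _ = Real.exp (4 * E) := by
            rw [← Real.exp_add, ← Real.exp_add]
            congr 1
            ring
    have h5 : 1 ≤ Real.exp (4 * E) := Real.one_le_exp (by positivity)
    have h6 : (2 : ℝ) ≤ Real.exp 1 := by
      have := Real.add_one_le_exp (1 : ℝ)
      linarith
    rw [Real.exp_add]
    nlinarith
  have hKE : (K : ℝ) ≤ E / 100 := by
    by_contra h1
    push Not at h1
    have h2 : ((K : ℝ) + 1) ^ 3 ≤ E := by exact_mod_cast hK
    have h3 : ((E : ℝ) / 100) ^ 3 < ((K : ℝ) + 1) ^ 3 :=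
      pow_lt_pow_left₀ (by linarith) (by positivity) (by norm_num)
    have h4 : (E : ℝ) ≤ (E / 100) ^ 3 := by
      have h5 : (10 : ℝ) ^ 6 ≤ (E : ℝ) ^ 2 := by nlinarith
      have h6 : ((E : ℝ) / 100) ^ 3 = E * (E ^ 2 / 10 ^ 6) := by ring
      rw [h6]
      have h7 : (1 : ℝ) ≤ (E : ℝ) ^ 2 / 10 ^ 6 := by
        rw [le_div_iff₀ (by norm_num)]
        linarith
      nlinarith
    linarith
  have hpos : 0 ≤ 1 + (P.card : ℝ) * (C * 2 ^ E) := by positivity
  calc WB m q M z y P n ^ 2 = |WB m q M z y P n| ^ 2 := (sq_abs _).symm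
    _ ≤ ((1 + (P.card : ℝ) * (C * 2 ^ E)) ^ K) ^ 2 := pow_le_pow_left₀ (abs_nonneg _) hW 2
    _ ≤ (Real.exp (4 * E + 1) ^ K) ^ 2 :=
        pow_le_pow_left₀ (by positivity) (pow_le_pow_left₀ hpos hbase K) 2
    _ = Real.exp (2 * (K * (4 * E + 1))) := by
        rw [← Real.exp_nat_mul, ← Real.exp_nat_mul]
        norm_num
    _ ≤ Real.exp ((E : ℝ) ^ 2 / 2) := by
        refine Real.exp_le_exp.2 ?_
        have h1 : (K : ℝ) * (4 * E + 1) ≤ E / 100 * (4 * E + 1) :=
          mul_le_mul_of_nonneg_right hKE (by positivity)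
        nlinarith

end Pool.Agent.Helper5.GM
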